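import Mathlib
import Pool.Agent.K9h98.GM.Cohen

/-!
# It is consistent with ZFC that all non-zero direct summands are isomorphic to the whole group

(1) Some notion of forcing preserves `ω₁` and forces Martin's axiom for `ℵ₁` dense sets (in the
form `MartinFor Om1`, which by (2) is equivalent to the usual form). (3) Martin's axiom for `ℵ₁`
dense sets implies: if `|I| = ℵ₁` and `G` is the group of the functions `I → ℤ` modulo those with
countable support, then every homomorphism `ℤ ^ I → G` is induced by an endomorphism of `ℤ ^ I`,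
and every non-zero direct summand of `G` is isomorphic to `G`.
-/

set_option autoImplicit false

namespace Pool.Agent.Results.MP_54b1e5_al.ForcedAllIsomorphic

open Pool.Agent.K9h98.GM
open Pool.Agent.W684 (MartinAxiomAleph1)
open Pool.Agent.W684.FM (OmegaOnePreserved MartinHolds MartinFor Om1)

theorem result :
    (∃ (P : Type) (_ : Preorder P), Nonempty P ∧ ∀ p : P,
      p ∈ OmegaOnePreserved P ∧ p ∈ MartinHolds P Om1) ∧
    (MartinFor Om1 ↔ MartinAxiomAleph1) ∧
    (MartinAxiomAleph1 → ∀ I : Type, Cardinal.mk I = Cardinal.aleph 1 →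
      (∀ T : (I → ℤ) →+
          ((I → ℤ) ⧸ AddSubgroup.closure {f : I → ℤ | (Function.support f).Countable}),
        ∃ φ : (I → ℤ) →+ (I → ℤ), ∀ f : I → ℤ, T f = QuotientAddGroup.mk (φ f)) ∧
      (∀ A B : AddSubgroup
          ((I → ℤ) ⧸ AddSubgroup.closure {f : I → ℤ | (Function.support f).Countable}),
        IsCompl A B → A ≠ ⊥ →
          Nonempty (A ≃+
            ((I → ℤ) ⧸ AddSubgroup.closure {f : I → ℤ | (Function.support f).Countable})))) := by
  refine ⟨?_, Pool.Agent.W684.FM.martinFor_om1_iff, fun h I hI => ?_⟩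
  · obtain ⟨P, i, hne, h⟩ := Pool.Agent.W684.FM.exists_forcing Om1
    exact ⟨P, i, hne, fun p => (h p).2⟩
  · have hMA := sigmaCentred_of_ma h
    exact ⟨fun T => lift_all' hMA hI _ closure_eq T, fun A B hAB hA => summands hMA hI A B hAB hA⟩

end Pool.Agent.Results.MP_54b1e5_al.ForcedAllIsomorphic
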